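import Pool.Agent.E8helper27.CB.Stm2

/-!
# Piece SPH
-/

set_option autoImplicit false

namespace E8h27.CB

namespace H99

open Finset

variable {m : ℕ}

lemma succ_val (i : Fin (2 * m + 5)) :
    ((i + 1 : Fin (2 * m + 5)) : ℕ) = if (i : ℕ) = 2 * m + 4 then 0 else (i : ℕ) + 1 := by
  have h := Fin.val_add_one (n := 2 * m + 4) i
  by_cases hi : (i : ℕ) = 2 * m + 4
  · rw [if_pos hi]
    rw [if_pos (Fin.ext (by rw [hi, Fin.val_last]))] at h
    exact h
  · rw [if_neg hi]
    rw [if_neg (fun e => hi (by rw [e, Fin.val_last]))] at h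
    exact h

lemma arccos_mono {x y : ℝ} (h : x ≤ y) : Real.arccos y ≤ Real.arccos x :=
  Real.antitone_arccos h

lemma half_pi_le {x : ℝ} (h : x ≤ 0) : Real.pi / 2 ≤ Real.arccos x := by
  have := arccos_mono h
  rwa [Real.arccos_zero] at this

/-- the comparison -/
lemma cmp {s k r : ℝ} (hs : s = 1 ∨ s = -1) (h1 : |k| ≤ |r|) (h2 : 0 ≤ k * r) (hk : 0 < s * k) :
    s * k ≤ s * r := by
  rcases hs with rfl | rfl
  · simp only [one_mul] at hk ⊢
    have hr : 0 ≤ r := by
      by_contra hr
      push Not at hr
      nlinarith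
    rwa [abs_of_pos hk, abs_of_nonneg hr] at h1
  · simp only [neg_mul, one_mul, neg_le_neg_iff] at hk ⊢
    have hk' : k < 0 := by linarith
    have hr : r ≤ 0 := by
      by_contra hr
      push Not at hr
      nlinarith
    rw [abs_of_neg hk', abs_of_nonpos hr] at h1
    linarith

/-- the case where only the last index may be bad -/
lemma core (hANG : S_ANG) (R : Fin (2 * m + 5) → Fin (2 * m + 5) → ℝ)
    (eta kap : Fin (2 * m + 5) → ℝ) (hP : Psd R) (hd : ∀ i, R i i = 1)
    (hn : ∀ i j, i ≠ j → j ≠ i + 1 → i ≠ j + 1 → R i j ≤ 0)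
    (he : ∀ i, eta i = 1 ∨ eta i = -1)
    (hk : ∀ i, |kap i| ≤ |R i (i + 1)|) (hkr : ∀ i, 0 ≤ kap i * R i (i + 1))
    (hg : ∀ i : Fin (2 * m + 5), (i : ℕ) ≠ 2 * m + 4 → 0 < -(eta i * eta (i + 1) * kap i)) :
    Real.pi ≤ ∑ i, Real.arccos (-(eta i * eta (i + 1) * kap i)) := by
  set z : Fin (2 * m + 5) → ℝ := fun i => eta i * (-1) ^ (i : ℕ) with hz
  have hz1 : ∀ i, z i = 1 ∨ z i = -1 := by
    intro i
    simp only [hz]
    rcases he i with h | h <;> rcases neg_one_pow_eq_or ℝ (i : ℕ) with h' | h' <;>
      rw [h, h'] <;> norm_num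
  have hzz : ∀ i, z i * z i = 1 := by
    intro i
    rcases hz1 i with h | h <;> rw [h] <;> norm_num
  set R' : Fin (2 * m + 5) → Fin (2 * m + 5) → ℝ := fun i j => z i * z j * R i j with hR'
  have hP' : Psd R' := by
    refine ⟨fun i j => ?_, fun x => ?_⟩
    · simp only [hR']
      rw [hP.1 i j]
      ring
    · have := hP.2 (fun i => z i * x i)
      refine this.trans (le_of_eq ?_)
      refine sum_congr rfl fun i _ => sum_congr rfl fun j _ => ?_
      simp only [hR']
      ring
  have hd' : ∀ i, R' i i = 1 := by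
    intro i
    simp only [hR']
    rw [hzz, hd, one_mul]
  have hA := hANG (Fin (2 * m + 5)) R' hP' hd'
  set K : Fin (2 * m + 5) → ℝ := fun i => -(eta i * eta (i + 1) * kap i) with hK
  -- consecutive vertices of the path
  have hstep : ∀ i : Fin (2 * m + 5), (i : ℕ) ≠ 2 * m + 4 →
      Real.arccos (R' i (i + 1)) ≤ Real.arccos (K i) := by
    intro i hi
    apply arccos_mono
    have hv : ((i + 1 : Fin (2 * m + 5)) : ℕ) = (i : ℕ) + 1 := by rw [succ_val, if_neg hi]
    have hsz : z i * z (i + 1) = -(eta i * eta (i + 1)) := by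
      simp only [hz]
      rw [hv, pow_succ]
      have : ((-1 : ℝ) ^ (i : ℕ)) * ((-1 : ℝ) ^ (i : ℕ)) = 1 := by
        rcases neg_one_pow_eq_or ℝ (i : ℕ) with h' | h' <;> rw [h'] <;> norm_num
      linear_combination (-(eta i * eta (i + 1))) * this
    have hs : -(eta i * eta (i + 1)) = 1 ∨ -(eta i * eta (i + 1)) = -1 := by
      rcases he i with h | h <;> rcases he (i + 1) with h' | h' <;> rw [h, h'] <;> norm_num
    have h0 : 0 < -(eta i * eta (i + 1)) * kap i := by
      have := hg i hi
      linarith
    have := cmp hs (hk i) (hkr i) h0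
    simp only [hK, hR']
    rw [hsz]
    linarith
  -- the path
  set a : ℕ → ℝ := fun k => if h : k < 2 * m + 5 then Real.arccos (K ⟨k, h⟩) else 0 with ha
  have ha0 : ∀ k, 0 ≤ a k := by
    intro k
    simp only [ha]
    split_ifs
    · exact Real.arccos_nonneg _
    · exact le_refl _
  have hpath : ∀ (i j : ℕ) (hij : i ≤ j) (hj : j < 2 * m + 5),
      Real.arccos (R' ⟨i, lt_of_le_of_lt hij hj⟩ ⟨j, hj⟩) ≤ ∑ k ∈ Ico i j, a k := by
    intro i j hij
    induction j, hij using Nat.le_induction with
    | base =>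
      intro hj
      rw [hd', Real.arccos_one]
      simp
    | succ j hij ih =>
      intro hj
      have hj' : j < 2 * m + 5 := by omega
      have h1 := hA ⟨i, lt_of_le_of_lt hij hj'⟩ ⟨j, hj'⟩ ⟨j + 1, hj⟩
      have h2 := ih hj'
      have h3 := hstep ⟨j, hj'⟩ (by simp only; omega)
      have h4 : (⟨j, hj'⟩ + 1 : Fin (2 * m + 5)) = ⟨j + 1, hj⟩ := by
        apply Fin.ext
        rw [succ_val, if_neg (by simp only; omega)]
      rw [h4] at h3
      rw [sum_Ico_succ_top hij]
      have h5 : a j = Real.arccos (K ⟨j, hj'⟩) := by simp only [ha]; rw [dif_pos hj']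
      rw [h5]
      linarith
  have htot : ∑ i, Real.arccos (K i) = ∑ k ∈ range (2 * m + 5), a k := by
    rw [← Fin.sum_univ_eq_sum_range]
    refine sum_congr rfl fun i _ => ?_
    simp only [ha]
    rw [dif_pos i.2]
  rw [htot, sum_range_succ]
  have hlast : a (2 * m + 4) = Real.arccos (K ⟨2 * m + 4, by omega⟩) := by
    simp only [ha]
    rw [dif_pos (by omega)]
  set l : Fin (2 * m + 5) := ⟨2 * m + 4, by omega⟩ with hl
  have hl1 : l + 1 = ⟨0, by omega⟩ := by
    apply Fin.ext
    rw [succ_val, if_pos rfl]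
  rw [hlast]
  by_cases hKl : 0 < K l
  · have h1 := hpath 0 (2 * m + 4) (by omega) (by omega)
    rw [← range_eq_Ico] at h1
    have h2 : K l ≤ -(R' l ⟨0, by omega⟩) := by
      have hs : -(eta l * eta (l + 1)) = 1 ∨ -(eta l * eta (l + 1)) = -1 := by
        rcases he l with h | h <;> rcases he (l + 1) with h' | h' <;> rw [h, h'] <;> norm_num
      have h0 : 0 < -(eta l * eta (l + 1)) * kap l := by
        simp only [hK] at hKl
        linarith
      have h3 := cmp hs (hk l) (hkr l) h0
      have hsz : z l * z ⟨0, by omega⟩ = eta l * eta (l + 1) := by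
        rw [hl1]
        simp only [hz, hl]
        have : ((-1 : ℝ) ^ (2 * m + 4)) = 1 := by
          apply Even.neg_one_pow
          exact ⟨m + 2, by ring⟩
        rw [this, pow_zero]
        ring
      simp only [hK, hR']
      rw [hsz]
      rw [hl1] at h3 ⊢
      linarith
    have h4 := arccos_mono h2
    rw [Real.arccos_neg] at h4
    have h5 : R' l ⟨0, by omega⟩ = R' ⟨0, by omega⟩ l := hP'.1 _ _
    rw [h5] at h4
    linarith
  · push Not at hKl
    have h1 := half_pi_le hKl
    have key : ∀ (i j : ℕ) (hij : i < j) (hj : j < 2 * m + 5) (_ : j ≤ 4)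
        (_ : i + 1 ≠ j) (_ : ¬ (i = 0 ∧ j = 4)),
        z ⟨i, hij.trans hj⟩ = z ⟨j, hj⟩ → Real.pi / 2 ≤ ∑ k ∈ range (2 * m + 4), a k := by
      intro i j hij hj hj4 hne h04 hzij
      have h2 := hpath i j hij.le hj
      have h3 : R' ⟨i, hij.trans hj⟩ ⟨j, hj⟩ ≤ 0 := by
        simp only [hR']
        rw [hzij, hzz, one_mul]
        apply hn
        · intro h
          rw [Fin.mk.injEq] at h
          omega
        · intro h
          have h' := congrArg Fin.val h
          rw [succ_val] at h'
          simp only at h'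
          split_ifs at h' <;> omega
        · intro h
          have h' := congrArg Fin.val h
          rw [succ_val] at h'
          simp only at h'
          split_ifs at h' <;> omega
      have h4 := half_pi_le h3
      have h5 : ∑ k ∈ Ico i j, a k ≤ ∑ k ∈ range (2 * m + 4), a k := by
        refine sum_le_sum_of_subset_of_nonneg ?_ (fun k _ _ => ha0 k)
        intro k hk
        rw [mem_Ico] at hk
        rw [mem_range]
        omega
      linarith
    have hhalf : Real.pi / 2 ≤ ∑ k ∈ range (2 * m + 4), a k := by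
      by_cases h02 : z ⟨0, by omega⟩ = z ⟨2, by omega⟩
      · exact key 0 2 (by omega) (by omega) (by omega) (by omega) (by omega) h02
      by_cases h24 : z ⟨2, by omega⟩ = z ⟨4, by omega⟩
      · exact key 2 4 (by omega) (by omega) (by omega) (by omega) (by omega) h24
      by_cases h14 : z ⟨1, by omega⟩ = z ⟨4, by omega⟩
      · exact key 1 4 (by omega) (by omega) (by omega) (by omega) (by omega) h14
      by_cases h13 : z ⟨1, by omega⟩ = z ⟨3, by omega⟩
      · exact key 1 3 (by omega) (by omega) (by omega) (by omega) (by omega) h13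
      by_cases h03 : z ⟨0, by omega⟩ = z ⟨3, by omega⟩
      · exact key 0 3 (by omega) (by omega) (by omega) (by omega) (by omega) h03
      exfalso
      rcases hz1 ⟨0, by omega⟩ with p0 | p0 <;> rcases hz1 ⟨1, by omega⟩ with p1 | p1 <;>
        rcases hz1 ⟨2, by omega⟩ with p2 | p2 <;> rcases hz1 ⟨3, by omega⟩ with p3 | p3 <;>
        rcases hz1 ⟨4, by omega⟩ with p4 | p4 <;>
        simp only [p0, p1, p2, p3, p4, not_true_eq_false] at h02 h24 h14 h13 h03
    linarith

end H99

open Finset H99 in
theorem t_SPH (hANG : S_ANG) : S_SPH := by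
  intro m R eta kap hP hd hn he hk hkr
  set K : Fin (2 * m + 5) → ℝ := fun i => -(eta i * eta (i + 1) * kap i) with hK
  by_cases htwo : ∃ i j, i ≠ j ∧ K i ≤ 0 ∧ K j ≤ 0
  · obtain ⟨i, j, hij, hi, hj⟩ := htwo
    have h1 : ∑ k ∈ ({i, j} : Finset (Fin (2 * m + 5))), Real.arccos (K k) ≤
        ∑ k, Real.arccos (K k) :=
      sum_le_sum_of_subset_of_nonneg (subset_univ _) (fun k _ _ => Real.arccos_nonneg _)
    rw [sum_pair hij] at h1
    have h2 := half_pi_le hi
    have h3 := half_pi_le hj
    show Real.pi ≤ ∑ k, Real.arccos (K k)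
    linarith
  · push Not at htwo
    obtain ⟨b, hb⟩ : ∃ b, ∀ i, i ≠ b → 0 < K i := by
      by_cases h : ∃ b, K b ≤ 0
      · obtain ⟨b, hb⟩ := h
        exact ⟨b, fun i hi => htwo b i hi.symm hb⟩
      · push Not at h
        exact ⟨0, fun i _ => h i⟩
    set c : Fin (2 * m + 5) := b + 1 with hc
    have hadd : ∀ i : Fin (2 * m + 5), i + 1 + c = i + c + 1 := fun i => by
      rw [add_right_comm]
    have h := core hANG (fun i j => R (i + c) (j + c)) (fun i => eta (i + c))
      (fun i => kap (i + c)) ?_ (fun i => hd _) ?_ (fun i => he _) ?_ ?_ ?_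
    · have e : ∑ i, Real.arccos (-(eta i * eta (i + 1) * kap i)) =
          ∑ i, Real.arccos (-(eta (i + c) * eta (i + 1 + c) * kap (i + c))) := by
        rw [← Equiv.sum_comp (Equiv.addRight c)
          (fun i => Real.arccos (-(eta i * eta (i + 1) * kap i)))]
        refine sum_congr rfl fun i _ => ?_
        simp only [Equiv.coe_addRight, hadd]
      rw [e]
      exact h
    · refine ⟨fun i j => hP.1 _ _, fun x => ?_⟩
      have h1 := hP.2 (fun i => x (i - c))
      have e : ∑ i, ∑ j, x (i - c) * R i j * x (j - c) =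
          ∑ i, ∑ j, x i * R (i + c) (j + c) * x j := by
        rw [← Equiv.sum_comp (Equiv.addRight c)
          (fun i => ∑ j, x (i - c) * R i j * x (j - c))]
        refine sum_congr rfl fun i _ => ?_
        simp only [Equiv.coe_addRight]
        rw [← Equiv.sum_comp (Equiv.addRight c)
          (fun j => x (i + c - c) * R (i + c) j * x (j - c))]
        refine sum_congr rfl fun j _ => ?_
        simp only [Equiv.coe_addRight, add_sub_cancel_right]
      rw [e] at h1
      exact h1
    · intro i j h1 h2 h3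
      apply hn
      · intro h
        exact h1 (add_right_cancel h)
      · intro h
        rw [← hadd] at h
        exact h2 (add_right_cancel h)
      · intro h
        rw [← hadd] at h
        exact h3 (add_right_cancel h)
    · intro i
      simp only [hadd]
      exact hk _
    · intro i
      simp only [hadd]
      exact hkr _
    · intro i hi
      have h1 := hb (i + c) (by
        intro h
        have h2 : i + 1 = 0 := by
          have h3 : b + (i + 1) = b + 0 := by
            rw [add_zero]
            calc b + (i + 1) = i + (b + 1) := add_left_comm b i 1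
              _ = b := h
          exact add_left_cancel h3
        have h4 := congrArg Fin.val h2
        rw [succ_val, if_neg hi] at h4
        simp at h4)
      simp only [hadd]
      exact h1

end E8h27.CB
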